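import Pool.Agent.Y503.RB.Def2
import Pool.Agent.Y977.RB.NFT

/-! Independence of the frame (`St_IND`). -/

set_option autoImplicit false

namespace Pool.Agent.Y429.RB

open scoped ContDiff RealInnerProductSpace ENNReal Topology
open MeasureTheory Set Metric
open Pool.Agent.Y503.RB

lemma ico_ioc (f : ℝ → ℝ≥0∞) (a b : ℝ) : ∫⁻ t in Ico a b, f t = ∫⁻ t in Ioc a b, f t :=
  setLIntegral_congr Ico_ae_eq_Ioc

lemma lper0 {f : ℝ → ℝ≥0∞} (hf : Function.Periodic f (2 * Real.pi)) (a b : ℝ) :
    ∫⁻ t in Ioc a (a + 2 * Real.pi), f t = ∫⁻ t in Ioc b (b + 2 * Real.pi), f t := by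
  have h1 := isAddFundamentalDomain_Ioc Real.two_pi_pos a volume
  have h2 := isAddFundamentalDomain_Ioc Real.two_pi_pos b volume
  refine h1.setLIntegral_eq h2 f fun g x => ?_
  obtain ⟨g, hg⟩ := g
  obtain ⟨n, rfl⟩ := AddSubgroup.mem_zmultiples_iff.1 hg
  show f (n • (2 * Real.pi) + x) = f x
  rw [add_comm]
  exact hf.zsmul n x

lemma lper1 {f : ℝ → ℝ≥0∞} (hf : Function.Periodic f (2 * Real.pi)) (c : ℝ) :
    ∫⁻ t in Ico 0 (2 * Real.pi), f (t + c) = ∫⁻ t in Ico 0 (2 * Real.pi), f t := by
  have h1 := (measurePreserving_add_right (volume : Measure ℝ) c).setLIntegral_comp_emb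
    (MeasurableEquiv.addRight c).measurableEmbedding f (Ico 0 (2 * Real.pi))
  rw [h1, image_add_const_Ico, ico_ioc, ico_ioc, zero_add, add_comm (2 * Real.pi) c, lper0 hf c 0,
    zero_add]

lemma lper2 {f : ℝ → ℝ≥0∞} (hf : Function.Periodic f (2 * Real.pi)) (c : ℝ) :
    ∫⁻ t in Ico 0 (2 * Real.pi), f (-t + c) = ∫⁻ t in Ico 0 (2 * Real.pi), f t := by
  have hg : Function.Periodic (fun t => f (t + c)) (2 * Real.pi) := fun x => by
    show f (x + 2 * Real.pi + c) = f (x + c)
    rw [show x + 2 * Real.pi + c = (x + c) + 2 * Real.pi by ring]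
    exact hf _
  have h1 := (Measure.measurePreserving_neg (volume : Measure ℝ)).setLIntegral_comp_emb
    (MeasurableEquiv.neg ℝ).measurableEmbedding (fun t => f (t + c)) (Ico 0 (2 * Real.pi))
  rw [h1]
  have h2 : (Neg.neg '' Ico (0 : ℝ) (2 * Real.pi)) = Ioc (0 - 2 * Real.pi) (0 - 0) := by
    rw [image_neg_eq_neg, Set.neg_Ico]
    simp
  have h3 := lper0 hg (-(2 * Real.pi)) 0
  rw [← lper1 hf c, ico_ioc]
  rw [h2]
  rw [show -(2 * Real.pi) + 2 * Real.pi = (0 : ℝ) - 0 by ring,
    show -(2 * Real.pi) = 0 - 2 * Real.pi by ring, zero_add] at h3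
  exact h3

theorem IND : St_IND := by
  intro φ N₁ N₂ U hp hfr z hz
  have u1 := hfr.unit₁ z hz
  have u2 := hfr.unit₂ z hz
  have o := hfr.orth z hz
  have o1 := hfr.norm₁ z hz
  have o2 := hfr.norm₂ z hz
  have i11 : ⟪N₁ z, N₁ z⟫ = (1 : ℝ) := by rw [real_inner_self_eq_norm_sq, u1]; norm_num
  have i22 : ⟪N₂ z, N₂ z⟫ = (1 : ℝ) := by rw [real_inner_self_eq_norm_sq, u2]; norm_num
  have o' : ⟪N₂ z, N₁ z⟫ = (0 : ℝ) := by rw [real_inner_comm]; exact o
  apply le_antisymm
  · let L0 : ℂ →ₗᵢ[ℝ] E4 :=
      { toFun := fun w => w.re • N₁ z + w.im • N₂ z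
        map_add' := by
          intro a b
          simp only [Complex.add_re, Complex.add_im, add_smul]
          abel
        map_smul' := by
          intro r a
          simp only [Complex.real_smul, Complex.mul_re, Complex.mul_im, Complex.ofReal_re,
            Complex.ofReal_im, zero_mul, sub_zero, add_zero, RingHom.id_apply, smul_add,
            smul_smul]
        norm_map' := by
          intro w
          have h1 : ‖w.re • N₁ z + w.im • N₂ z‖ ^ 2 = ‖w‖ ^ 2 := by
            rw [← real_inner_self_eq_norm_sq, ← Complex.normSq_eq_norm_sq, Complex.normSq_apply]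
            simp only [inner_add_left, inner_add_right, real_inner_smul_left,
              real_inner_smul_right, i11, i22, o, o']
            ring
          exact (sq_eq_sq₀ (norm_nonneg _) (norm_nonneg _)).1 h1 }
    have hL0 : ∀ w v : ℂ, ⟪L0 w, d1 φ v z⟫ = (0 : ℝ) := by
      intro w v
      show ⟪w.re • N₁ z + w.im • N₂ z, d1 φ v z⟫ = (0 : ℝ)
      rw [inner_add_left, real_inner_smul_left, real_inner_smul_left, o1, o2]
      ring
    exact le_iSup₂_of_le L0 hL0 le_rfl
  · refine iSup₂_le fun L hL => le_of_eq ?_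
    obtain ⟨a, -, ha⟩ := Pool.Agent.Y977.RB.frame φ N₁ N₂ U hp hfr z hz (L 1)
      (by rw [L.norm_map]; exact norm_one) (hL 1)
    obtain ⟨b, -, hb⟩ := Pool.Agent.Y977.RB.frame φ N₁ N₂ U hp hfr z hz (L Complex.I)
      (by rw [L.norm_map]; exact Complex.norm_I) (hL Complex.I)
    have h0 : ⟪L 1, L Complex.I⟫ = (0 : ℝ) := by
      rw [L.inner_map_map]
      simp [Complex.inner]
    have h1 : Real.cos a * Real.cos b + Real.sin a * Real.sin b = 0 := by
      rw [ha, hb] at h0
      simp only [nor, inner_add_left, inner_add_right, real_inner_smul_left,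
        real_inner_smul_right, i11, i22, o, o'] at h0
      linarith
    have hLt : ∀ t : ℝ, L ⟨Real.cos t, Real.sin t⟩ =
        (Real.cos t * Real.cos a + Real.sin t * Real.cos b) • N₁ z +
          (Real.cos t * Real.sin a + Real.sin t * Real.sin b) • N₂ z := by
      intro t
      have h2 : ∀ x y : ℝ, (⟨x, y⟩ : ℂ) = x • (1 : ℂ) + y • Complex.I := by
        intro x y
        apply Complex.ext <;> simp
      rw [h2, L.map_add, L.map_smul, L.map_smul, ha, hb]
      simp only [nor, smul_add, smul_smul, add_smul]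
      abel
    obtain ⟨f, hf⟩ : ∃ f : ℝ → ℝ≥0∞, f = fun t => ENNReal.ofReal (dens φ (nor N₁ N₂ t z) z) :=
      ⟨_, rfl⟩
    have hper : Function.Periodic f (2 * Real.pi) := by
      intro t
      rw [hf]
      simp only [nor, Real.cos_add_two_pi, Real.sin_add_two_pi]
    have hca := Real.sin_sq_add_cos_sq a
    have hcb := Real.sin_sq_add_cos_sq b
    have hs : (Real.cos b = -Real.sin a ∧ Real.sin b = Real.cos a) ∨
        (Real.cos b = Real.sin a ∧ Real.sin b = -Real.cos a) := by
      obtain ⟨s, hs⟩ : ∃ s, s = Real.cos a * Real.sin b - Real.sin a * Real.cos b := ⟨_, rfl⟩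
      have e1 : Real.cos b = -(s * Real.sin a) := by
        rw [hs]
        linear_combination (-Real.cos b) * hca + Real.cos a * h1
      have e2 : Real.sin b = s * Real.cos a := by
        rw [hs]
        linear_combination (-Real.sin b) * hca + Real.sin a * h1
      have e3 : s ^ 2 = 1 := by
        have : s ^ 2 * (Real.sin a ^ 2 + Real.cos a ^ 2) = 1 := by
          rw [← hcb, e1, e2]
          ring
        rwa [hca, mul_one] at this
      rcases mul_self_eq_one_iff.1 ((sq s).symm.trans e3) with h | h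
      · left
        rw [h] at e1 e2
        exact ⟨by linarith, by linarith⟩
      · right
        rw [h] at e1 e2
        exact ⟨by linarith, by linarith⟩
    rcases hs with ⟨h2, h3⟩ | ⟨h2, h3⟩
    · have h4 : (fun t : ℝ => ENNReal.ofReal (dens φ (L ⟨Real.cos t, Real.sin t⟩) z)) =
          fun t => f (t + a) := by
        funext t
        rw [hLt, hf, h2, h3]
        simp only [nor, Real.cos_add, Real.sin_add]
        congr 4
        · ring_nf
        · ring_nf
      rw [h4, lper1 hper, hf]
    · have h4 : (fun t : ℝ => ENNReal.ofReal (dens φ (L ⟨Real.cos t, Real.sin t⟩) z)) =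
          fun t => f (-t + a) := by
        funext t
        rw [hLt, hf, h2, h3]
        simp only [nor, Real.cos_add, Real.sin_add, Real.cos_neg, Real.sin_neg]
        congr 4
        · ring_nf
        · ring_nf
      rw [h4, lper2 hper, hf]

end Pool.Agent.Y429.RB
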